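import Pool.Agent.W516.MT.Stmt

/-!
NBH: continuous representations of compact groups (subtask MT-NBH).
-/

set_option autoImplicit false

namespace Pool.Agent.W32.MT

open Pool.Agent.W516.MTS

theorem near_one (ℓ : ℕ) [Fact ℓ.Prime] {n : ℕ} : Near ℓ (1 : Matrix (Fin n) (Fin n) ℚ_[ℓ]) := by
  intro i j
  rw [sub_self]
  simp only [Matrix.zero_apply, norm_zero]
  positivity

theorem eps_le (ℓ : ℕ) [Fact ℓ.Prime] : (0 : ℝ) ≤ (ℓ : ℝ) ^ (-2 : ℤ) ∧ (ℓ : ℝ) ^ (-2 : ℤ) ≤ 1 := by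
  refine ⟨by positivity, ?_⟩
  have h1 : (1 : ℝ) ≤ ℓ := by exact_mod_cast (Fact.out : ℓ.Prime).one_lt.le
  exact zpow_le_one_of_nonpos₀ h1 (by norm_num)

theorem scalar_mul (ℓ : ℕ) [Fact ℓ.Prime] {a b : ℚ_[ℓ]} (ha : ‖a‖ ≤ (ℓ : ℝ) ^ (-2 : ℤ))
    (hb : ‖b‖ ≤ (ℓ : ℝ) ^ (-2 : ℤ)) : ‖a * b‖ ≤ (ℓ : ℝ) ^ (-2 : ℤ) := by
  obtain ⟨h0, h1⟩ := eps_le ℓ
  rw [norm_mul]
  calc ‖a‖ * ‖b‖ ≤ (ℓ : ℝ) ^ (-2 : ℤ) * 1 := mul_le_mul ha (hb.trans h1) (norm_nonneg _) h0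
    _ = _ := mul_one _

theorem add_le (ℓ : ℕ) [Fact ℓ.Prime] {a b : ℚ_[ℓ]} {r : ℝ} (ha : ‖a‖ ≤ r) (hb : ‖b‖ ≤ r) :
    ‖a + b‖ ≤ r := (IsUltrametricDist.norm_add_le_max a b).trans (max_le ha hb)

theorem near_mul (ℓ : ℕ) [Fact ℓ.Prime] {n : ℕ} {A B : Matrix (Fin n) (Fin n) ℚ_[ℓ]}
    (hA : Near ℓ A) (hB : Near ℓ B) : Near ℓ (A * B) := by
  intro i j
  have h1 : A * B - 1 = (A - 1) + (B - 1) + (A - 1) * (B - 1) := by noncomm_ring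
  rw [h1, Matrix.add_apply, Matrix.add_apply, Matrix.mul_apply]
  refine add_le ℓ (add_le ℓ (hA i j) (hB i j)) ?_
  exact IsUltrametricDist.norm_sum_le_of_forall_le_of_nonneg (eps_le ℓ).1
    fun k _ => scalar_mul ℓ (hA i k) (hB k j)

theorem chi_mul (ℓ : ℕ) [Fact ℓ.Prime] {a b : ℚ_[ℓ]} (ha : ‖a - 1‖ ≤ (ℓ : ℝ) ^ (-2 : ℤ))
    (hb : ‖b - 1‖ ≤ (ℓ : ℝ) ^ (-2 : ℤ)) : ‖a * b - 1‖ ≤ (ℓ : ℝ) ^ (-2 : ℤ) := by
  have h1 : a * b - 1 = (a - 1) + (b - 1) + (a - 1) * (b - 1) := by ring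
  rw [h1]
  exact add_le ℓ (add_le ℓ ha hb) (scalar_mul ℓ ha hb)

theorem T_NBH : S_NBH := by
  intro ℓ _ n Γ _ _ _ _ M χ hM hχ
  obtain ⟨he0, he1⟩ := eps_le ℓ
  have hpos : (0 : ℝ) < (ℓ : ℝ) ^ (-2 : ℤ) := by
    have : (0 : ℝ) < ℓ := by exact_mod_cast (Fact.out : ℓ.Prime).pos
    positivity
  let Δ : Subgroup Γ :=
    { carrier := {s | (Near ℓ (M s) ∧ ‖χ s - 1‖ ≤ (ℓ : ℝ) ^ (-2 : ℤ)) ∧
        (Near ℓ (M s⁻¹) ∧ ‖χ s⁻¹ - 1‖ ≤ (ℓ : ℝ) ^ (-2 : ℤ))}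
      mul_mem' := by
        rintro s t ⟨⟨h1, h2⟩, h3, h4⟩ ⟨⟨h5, h6⟩, h7, h8⟩
        refine ⟨⟨?_, ?_⟩, ?_, ?_⟩
        · rw [map_mul]
          exact near_mul ℓ h1 h5
        · rw [map_mul]
          exact chi_mul ℓ h2 h6
        · rw [mul_inv_rev, map_mul]
          exact near_mul ℓ h7 h3
        · rw [mul_inv_rev, map_mul]
          exact chi_mul ℓ h8 h4
      one_mem' := by
        have h1 : Near ℓ (M 1) ∧ ‖χ 1 - 1‖ ≤ (ℓ : ℝ) ^ (-2 : ℤ) := by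
          rw [map_one, map_one, sub_self, norm_zero]
          exact ⟨near_one ℓ, he0⟩
        refine ⟨h1, ?_⟩
        rw [inv_one]
        exact h1
      inv_mem' := by
        rintro s ⟨h1, h2⟩
        refine ⟨h2, ?_⟩
        rw [inv_inv]
        exact h1 }
  have hball : IsOpen {x : ℚ_[ℓ] | ‖x‖ ≤ (ℓ : ℝ) ^ (-2 : ℤ)} := by
    have h1 := IsUltrametricDist.isOpen_closedBall (0 : ℚ_[ℓ]) hpos.ne'
    have h2 : {x : ℚ_[ℓ] | ‖x‖ ≤ (ℓ : ℝ) ^ (-2 : ℤ)} = Metric.closedBall 0 ((ℓ : ℝ) ^ (-2 : ℤ)) := by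
      ext x
      rw [mem_closedBall_zero_iff]
      rfl
    rw [h2]
    exact h1
  have hent : ∀ i j, Continuous fun s => (M s - 1) i j := by
    intro i j
    have h1 : Continuous fun s => M s i j := (continuous_apply j).comp ((continuous_apply i).comp hM)
    exact h1.sub continuous_const
  have hopen1 : IsOpen {s | Near ℓ (M s) ∧ ‖χ s - 1‖ ≤ (ℓ : ℝ) ^ (-2 : ℤ)} := by
    have h1 : {s | Near ℓ (M s) ∧ ‖χ s - 1‖ ≤ (ℓ : ℝ) ^ (-2 : ℤ)} =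
        (⋂ i : Fin n, ⋂ j : Fin n,
          (fun s => (M s - 1) i j) ⁻¹' {x : ℚ_[ℓ] | ‖x‖ ≤ (ℓ : ℝ) ^ (-2 : ℤ)}) ∩
        (fun s => χ s - 1) ⁻¹' {x : ℚ_[ℓ] | ‖x‖ ≤ (ℓ : ℝ) ^ (-2 : ℤ)} := by
      ext s
      simp only [Set.mem_inter_iff, Set.mem_iInter]
      rfl
    rw [h1]
    refine IsOpen.inter ?_ (hball.preimage (hχ.sub continuous_const))
    exact isOpen_iInter_of_finite fun i => isOpen_iInter_of_finite fun j =>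
      hball.preimage (hent i j)
  have hopen : IsOpen (Δ : Set Γ) := by
    have h1 : (Δ : Set Γ) = {s | Near ℓ (M s) ∧ ‖χ s - 1‖ ≤ (ℓ : ℝ) ^ (-2 : ℤ)} ∩
        (fun s => s⁻¹) ⁻¹' {s | Near ℓ (M s) ∧ ‖χ s - 1‖ ≤ (ℓ : ℝ) ^ (-2 : ℤ)} := rfl
    rw [h1]
    exact hopen1.inter (hopen1.preimage continuous_inv)
  refine ⟨Δ, ?_, fun s hs => hs.1⟩
  have := Subgroup.quotient_finite_of_isOpen Δ hopen
  exact Subgroup.finiteIndex_of_finite_quotient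

end Pool.Agent.W32.MT
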